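import Mathlib

/-!
# Straight-line programs of NAND gates
-/

namespace Pool.Agent.TH706.NE

/-- The functions that may be fed to a gate after the functions in the list `L` have been computed:
these functions, the input bits, and the constants. -/
def Avail {ι : Type} (L : List ((ι → Bool) → Bool)) (f : (ι → Bool) → Bool) : Prop :=
  f ∈ L ∨ (∃ i, f = fun x => x i) ∨ ∃ b, f = fun _ => b

/-- The list `L` of functions of the input bits `x : ι → Bool` is computed by a circuit of NAND
gates, one gate for each function of the list (the last function of the list comes first). -/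
inductive Prog {ι : Type} : List ((ι → Bool) → Bool) → Prop
  | nil : Prog []
  | gate {L : List ((ι → Bool) → Bool)} {f g : (ι → Bool) → Bool} :
      Prog L → Avail L f → Avail L g → Prog ((fun x => !(f x && g x)) :: L)

/-- The bits `F x k` are all computed by one circuit with at most `s` NAND gates from the input
bits `x`. -/
def Comp {ι κ : Type} (F : (ι → Bool) → κ → Bool) (s : ℕ) : Prop :=
  ∃ L : List ((ι → Bool) → Bool), Prog L ∧ L.length ≤ s ∧ ∀ k, Avail L fun x => F x k

section lemmas

variable {ι κ μ : Type}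

lemma Avail.mono {L L' : List ((ι → Bool) → Bool)} {f : (ι → Bool) → Bool} (h : Avail L f)
    (hL : L ⊆ L') : Avail L' f := by
  rcases h with h | h | h
  · exact Or.inl (hL h)
  · exact Or.inr (Or.inl h)
  · exact Or.inr (Or.inr h)

lemma Prog.append {L L' : List ((ι → Bool) → Bool)} (h : Prog L) (h' : Prog L') :
    Prog (L' ++ L) := by
  induction h' with
  | nil => exact h
  | @gate L₁ f g h1 hf hg ih =>
    exact Prog.gate ih (hf.mono (List.subset_append_left _ _))
      (hg.mono (List.subset_append_left _ _))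

lemma Prog.subst {L : List ((ι → Bool) → Bool)} {F : (ι → Bool) → κ → Bool} (h : Prog L)
    (hF : ∀ k, Avail L fun x => F x k) {M : List ((κ → Bool) → Bool)} (hM : Prog M) :
    Prog (M.map (fun g x => g (F x)) ++ L) := by
  have key : ∀ (M : List ((κ → Bool) → Bool)) (g : (κ → Bool) → Bool), Avail M g →
      Avail (M.map (fun g x => g (F x)) ++ L) fun x => g (F x) := by
    intro M g hg
    rcases hg with hg | ⟨i, rfl⟩ | ⟨b, rfl⟩
    · exact Or.inl (List.mem_append_left _ (List.mem_map_of_mem hg))
    · exact (hF i).mono (List.subset_append_right _ _)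
    · exact Or.inr (Or.inr ⟨b, rfl⟩)
  induction hM with
  | nil => exact h
  | @gate M₁ f g h1 hf hg ih =>
    exact Prog.gate ih (key _ _ hf) (key _ _ hg)

lemma Comp.mono {F : (ι → Bool) → κ → Bool} {s t : ℕ} (h : Comp F s) (hst : s ≤ t) : Comp F t := by
  obtain ⟨L, h1, h2, h3⟩ := h
  exact ⟨L, h1, h2.trans hst, h3⟩

lemma Comp.comp {F : (ι → Bool) → κ → Bool} {G : (κ → Bool) → μ → Bool} {s t : ℕ}
    (hF : Comp F s) (hG : Comp G t) : Comp (fun x => G (F x)) (s + t) := by
  obtain ⟨L, h1, h2, h3⟩ := hF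
  obtain ⟨M, h4, h5, h6⟩ := hG
  refine ⟨M.map (fun g x => g (F x)) ++ L, Prog.subst h1 h3 h4, ?_, fun k => ?_⟩
  · rw [List.length_append, List.length_map]
    omega
  · rcases h6 k with hg | ⟨i, hi⟩ | ⟨b, hb⟩
    · exact Or.inl (List.mem_append_left _
        (List.mem_map.2 ⟨fun y => G y k, hg, rfl⟩))
    · have : (fun x => G (F x) k) = fun x => F x i := by
        funext x
        exact congrFun hi (F x)
      rw [this]
      exact (h3 i).mono (List.subset_append_right _ _)
    · have : (fun x => G (F x) k) = fun _ => b := by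
        funext x
        exact congrFun hb (F x)
      rw [this]
      exact Or.inr (Or.inr ⟨b, rfl⟩)

/-- functions whose values are input bits and constants -/
lemma Comp.wires {F : (ι → Bool) → κ → Bool}
    (h : ∀ k, (∃ i, ∀ x, F x k = x i) ∨ ∃ b, ∀ x, F x k = b) : Comp F 0 := by
  refine ⟨[], Prog.nil, le_rfl, fun k => ?_⟩
  rcases h k with ⟨i, hi⟩ | ⟨b, hb⟩
  · exact Or.inr (Or.inl ⟨i, funext hi⟩)
  · exact Or.inr (Or.inr ⟨b, funext hb⟩)

/-- one function is computed with `s` gates -/
def C1 (f : (ι → Bool) → Bool) (s : ℕ) : Prop := Comp (fun x (_ : Unit) => f x) s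

lemma Comp.c1 {F : (ι → Bool) → κ → Bool} {s : ℕ} (h : Comp F s) (k : κ) :
    C1 (fun x => F x k) s := by
  obtain ⟨L, h1, h2, h3⟩ := h
  exact ⟨L, h1, h2, fun _ => h3 k⟩

lemma C1.mono {f : (ι → Bool) → Bool} {s t : ℕ} (h : C1 f s) (hst : s ≤ t) : C1 f t :=
  Comp.mono h hst

lemma C1.congr {f g : (ι → Bool) → Bool} {s : ℕ} (h : C1 f s) (hfg : ∀ x, f x = g x) : C1 g s := by
  have : f = g := funext hfg
  rwa [← this]

lemma C1.input (i : ι) : C1 (fun x => x i) 0 := Comp.wires fun _ => Or.inl ⟨i, fun _ => rfl⟩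

lemma C1.const (b : Bool) : C1 (fun _ : ι → Bool => b) 0 :=
  Comp.wires fun _ => Or.inr ⟨b, fun _ => rfl⟩

lemma C1.nand {f g : (ι → Bool) → Bool} {s t : ℕ} (hf : C1 f s) (hg : C1 g t) :
    C1 (fun x => !(f x && g x)) (s + t + 1) := by
  obtain ⟨L, h1, h2, h3⟩ := hf
  obtain ⟨M, h4, h5, h6⟩ := hg
  refine ⟨(fun x => !(f x && g x)) :: (M ++ L), Prog.gate (Prog.append h1 h4) ?_ ?_, ?_, ?_⟩
  · exact (h3 ()).mono (List.subset_append_right _ _)
  · exact (h6 ()).mono (List.subset_append_left _ _)
  · rw [List.length_cons, List.length_append]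
    omega
  · intro k
    exact Or.inl List.mem_cons_self

lemma C1.not {f : (ι → Bool) → Bool} {s : ℕ} (hf : C1 f s) : C1 (fun x => !f x) (s + 1) := by
  obtain ⟨L, h1, h2, h3⟩ := hf
  have : (fun x => !f x) = fun x => !(f x && f x) := by
    funext x
    rw [Bool.and_self]
  rw [this]
  refine ⟨(fun x => !(f x && f x)) :: L, Prog.gate h1 (h3 ()) (h3 ()), ?_, ?_⟩
  · rw [List.length_cons]
    omega
  · intro k
    exact Or.inl List.mem_cons_self

lemma C1.and {f g : (ι → Bool) → Bool} {s t : ℕ} (hf : C1 f s) (hg : C1 g t) :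
    C1 (fun x => f x && g x) (s + t + 2) := by
  have h := (hf.nand hg).not
  refine h.congr fun x => ?_
  simp

lemma C1.or {f g : (ι → Bool) → Bool} {s t : ℕ} (hf : C1 f s) (hg : C1 g t) :
    C1 (fun x => f x || g x) (s + t + 3) := by
  have h := hf.not.nand hg.not
  refine (h.mono (by omega)).congr fun x => ?_
  simp

lemma C1.xnor {f g : (ι → Bool) → Bool} {s t : ℕ} (hf : C1 f s) (hg : C1 g t) :
    C1 (fun x => f x == g x) (2 * (s + t) + 9) := by
  have h := (hf.and hg).or (hf.not.and hg.not)
  refine (h.mono (by omega)).congr fun x => ?_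
  cases f x <;> cases g x <;> rfl

/-- conjunction of a finite family -/
lemma C1.ball {α : Type} (S : Finset α) {f : α → (ι → Bool) → Bool} {s : ℕ}
    (hf : ∀ a ∈ S, C1 (f a) s) :
    C1 (fun x => decide (∀ a ∈ S, f a x = true)) (S.card * (s + 2)) := by
  classical
  induction S using Finset.induction_on with
  | empty =>
    simp only [Finset.card_empty, zero_mul]
    exact (C1.const true).congr fun x => by simp
  | insert a S ha ih =>
    have h1 := ih fun b hb => hf b (Finset.mem_insert_of_mem hb)
    have h2 := (hf a (Finset.mem_insert_self a S)).and h1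
    rw [Finset.card_insert_of_notMem ha]
    refine (h2.mono (by ring_nf; omega)).congr fun x => ?_
    rw [Bool.eq_iff_iff]
    simp

/-- disjunction of a finite family -/
lemma C1.bex {α : Type} (S : Finset α) {f : α → (ι → Bool) → Bool} {s : ℕ}
    (hf : ∀ a ∈ S, C1 (f a) s) :
    C1 (fun x => decide (∃ a ∈ S, f a x = true)) (S.card * (s + 3) + 1) := by
  have h := (C1.ball S (fun a ha => (hf a ha).not)).not
  refine (h.mono le_rfl).congr fun x => ?_
  rw [Bool.eq_iff_iff]
  simp

lemma C1.ball' {α : Type} (S : Finset α) (f : α → (ι → Bool) → Bool) {s : ℕ}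
    {g : (ι → Bool) → Bool} (hg : ∀ x, g x = true ↔ ∀ a ∈ S, f a x = true)
    (hf : ∀ a ∈ S, C1 (f a) s) : C1 g (S.card * (s + 2)) := by
  classical
  refine (C1.ball S hf).congr fun x => ?_
  rw [Bool.eq_iff_iff, hg x, decide_eq_true_eq]

lemma C1.bex' {α : Type} (S : Finset α) (f : α → (ι → Bool) → Bool) {s : ℕ}
    {g : (ι → Bool) → Bool} (hg : ∀ x, g x = true ↔ ∃ a ∈ S, f a x = true)
    (hf : ∀ a ∈ S, C1 (f a) s) : C1 g (S.card * (s + 3) + 1) := by
  classical
  refine (C1.bex S hf).congr fun x => ?_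
  rw [Bool.eq_iff_iff, hg x, decide_eq_true_eq]

/-- finitely many bits, computed separately -/
lemma Comp.ofC1 [Fintype κ] {F : (ι → Bool) → κ → Bool} {s : ℕ}
    (h : ∀ k, C1 (fun x => F x k) s) : Comp F (Fintype.card κ * s) := by
  classical
  have key : ∀ S : Finset κ, ∃ L : List ((ι → Bool) → Bool), Prog L ∧ L.length ≤ S.card * s ∧
      ∀ k ∈ S, Avail L fun x => F x k := by
    intro S
    induction S using Finset.induction_on with
    | empty => exact ⟨[], Prog.nil, by simp, by simp⟩
    | insert a S ha ih =>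
      obtain ⟨L, h1, h2, h3⟩ := ih
      obtain ⟨M, h4, h5, h6⟩ := h a
      refine ⟨M ++ L, h1.append h4, ?_, fun k hk => ?_⟩
      · rw [List.length_append, Finset.card_insert_of_notMem ha]
        have : (S.card + 1) * s = S.card * s + s := by ring
        omega
      · rcases Finset.mem_insert.1 hk with rfl | hk
        · exact (h6 ()).mono (List.subset_append_left _ _)
        · exact (h3 k hk).mono (List.subset_append_right _ _)
  obtain ⟨L, h1, h2, h3⟩ := key Finset.univ
  exact ⟨L, h1, h2, fun k => h3 k (Finset.mem_univ k)⟩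

end lemmas

end Pool.Agent.TH706.NE
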