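import Mathlib
import Pool.Agent.H679R2.M1.Defs
import Pool.Agent.TH706.NE.Circ

/-!
# Turing reductions of the clique problem, nondeterministic circuits: definitions
-/

namespace Pool.Agent.TH706.NE

open Pool.Agent.H679R2.M1 (Clause Sat)

open Classical in
/-- the adjacency matrix of a graph -/
noncomputable def adj {n : ℕ} (G : SimpleGraph (Fin n)) (p : Fin n × Fin n) : Bool :=
  decide (G.Adj p.1 p.2)

/-- A (nonuniform) Turing reduction of a problem on graphs with `n` vertices to the satisfiability
problem for formulas with at most `d` literals per clause over `v` variables.  It asks `q` queries,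
one after the other.  The query `query x a i` is a formula, given by one bit for each possible
clause; it may depend on the adjacency matrix `x` and on the answers `a j` to the earlier queries.
The output may depend on `x` and on all answers. -/
structure TuringRed (n v d q : ℕ) where
  /-- the queries -/
  query : (Fin n × Fin n → Bool) → (Fin q → Bool) → Fin q → Clause v d → Bool
  /-- the output -/
  out : (Fin n × Fin n → Bool) → (Fin q → Bool) → Bool
  /-- a query depends only on the answers to the earlier queries -/
  causal : ∀ x a a' i, (∀ j < i, a j = a' j) → query x a i = query x a' i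

/-- The bits of all queries and the output are computed by one circuit with at most `s` gates whose
inputs are the adjacency matrix and the answers. -/
def TuringRed.Size {n v d q : ℕ} (R : TuringRed n v d q) (s : ℕ) : Prop :=
  Comp (fun (z : (Fin n × Fin n) ⊕ Fin q → Bool) (o : Option (Fin q × Clause v d)) =>
    o.elim (R.out (fun p => z (Sum.inl p)) fun i => z (Sum.inr i)) fun p =>
      R.query (fun p => z (Sum.inl p)) (fun i => z (Sum.inr i)) p.1 p.2) s

/-- If the queries are answered correctly then the output says whether the graph has a clique of
`k` vertices. -/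
def TuringRed.Decides {n v d q : ℕ} (R : TuringRed n v d q) (k : ℕ) : Prop :=
  ∀ (G : SimpleGraph (Fin n)) (a : Fin q → Bool),
    (∀ i, a i = true ↔ Sat (R.query (adj G) a i)) → (R.out (adj G) a = true ↔ ¬ G.CliqueFree k)

/-- The property `P` of the input bits `x` is accepted by a nondeterministic circuit with at most
`s` gates and with `w` nondeterministic bits `y`. -/
def NComp {ι : Type} (P : (ι → Bool) → Prop) (w s : ℕ) : Prop :=
  ∃ V : (ι ⊕ Fin w → Bool) → Bool, Comp (fun z (_ : Unit) => V z) s ∧
    ∀ x, P x ↔ ∃ y : Fin w → Bool, V (Sum.elim x y) = true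

lemma exists_answers {q : ℕ} (P : (Fin q → Bool) → Fin q → Bool)
    (hP : ∀ a a' i, (∀ j < i, a j = a' j) → P a i = P a' i) : ∃ a, ∀ i, a i = P a i := by
  obtain ⟨A, hA⟩ : ∃ A : ℕ → Fin q → Bool, ∀ r, A (r + 1) = P (A r) :=
    ⟨fun r => P^[r] fun _ => false, fun r => Function.iterate_succ_apply' _ _ _⟩
  have key : ∀ r, ∀ i : Fin q, i.val < r → A (r + 1) i = A r i := by
    intro r
    induction r with
    | zero => exact fun i hi => absurd hi (Nat.not_lt_zero _)
    | succ r ih =>
      intro i hi
      rw [hA (r + 1), hA r]
      refine hP _ _ _ fun j hj => ?_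
      rw [← hA r]
      exact ih j (by have : j.val < i.val := hj; omega)
  refine ⟨A q, fun i => ?_⟩
  rw [← hA q]
  exact (key q i i.2).symm

end Pool.Agent.TH706.NE
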