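import Mathlib

/-!
# The covering lemma of Fortnow and Santhanam
-/

namespace Pool.Agent.TH706.NE

open Finset

theorem cover {X T Λ : Type} [Fintype T] [Fintype Λ] [Nonempty T]
    (hT : Fintype.card Λ ≤ Fintype.card T) (Q : (T → X) → (Λ → Bool)) (s : ℕ) :
    ∀ U : Finset X, U.card < 2 ^ s → ∃ A : Finset (Λ → Bool), A.card ≤ s ∧
      (∀ a ∈ A, ∃ ψ : T → X, (∀ t, ψ t ∈ U) ∧ Q ψ = a) ∧
      ∀ φ ∈ U, ∃ ψ : T → X, (∀ t, ψ t ∈ U) ∧ (∃ t, ψ t = φ) ∧ Q ψ ∈ A := by
  classical
  induction s with
  | zero =>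
    intro U hU
    have : U = ∅ := by
      rw [← Finset.card_eq_zero]
      omega
    subst this
    exact ⟨∅, by simp, by simp, by simp⟩
  | succ s ih =>
    intro U hU
    obtain ⟨P, hP⟩ : ∃ P, P = Fintype.piFinset (fun _ : T => U) := ⟨_, rfl⟩
    have hPc : P.card = U.card ^ Fintype.card T := by
      rw [hP, Fintype.card_piFinset, Finset.prod_const, Finset.card_univ]
    have h2 : (0 : ℚ) < 2 ^ Fintype.card Λ := by positivity
    obtain ⟨a, -, ha⟩ := Finset.exists_le_card_fiber_of_nsmul_le_card_of_maps_to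
      (s := P) (t := (univ : Finset (Λ → Bool))) (f := Q)
      (b := (P.card : ℚ) / 2 ^ Fintype.card Λ) (fun _ _ => Finset.mem_univ _)
      ⟨fun _ => true, Finset.mem_univ _⟩ (by
        rw [Finset.card_univ, Fintype.card_fun, Fintype.card_bool, nsmul_eq_mul]
        push_cast
        rw [mul_div_cancel₀ _ h2.ne'])
    rw [div_le_iff₀ h2] at ha
    obtain ⟨S, hS⟩ : ∃ S, S = U.filter (fun φ => ∃ ψ ∈ P, Q ψ = a ∧ ∃ t, ψ t = φ) := ⟨_, rfl⟩
    have hsub : P.filter (fun x => Q x = a) ⊆ Fintype.piFinset (fun _ : T => S) := by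
      intro ψ hψ
      rw [Finset.mem_filter] at hψ
      rw [Fintype.mem_piFinset]
      intro t
      rw [hS, Finset.mem_filter]
      have h3 : ∀ t, ψ t ∈ U := by
        have := hψ.1
        rw [hP, Fintype.mem_piFinset] at this
        exact this
      exact ⟨h3 t, ψ, hψ.1, hψ.2, t, rfl⟩
    have hc := Finset.card_le_card hsub
    rw [Fintype.card_piFinset, Finset.prod_const, Finset.card_univ] at hc
    have hkey : U.card ^ Fintype.card T ≤ (2 * S.card) ^ Fintype.card T := by
      have h3 : (U.card : ℚ) ^ Fintype.card T ≤ (S.card : ℚ) ^ Fintype.card T * 2 ^ Fintype.card Λ := by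
        rw [hPc] at ha
        push_cast at ha
        refine ha.trans ?_
        gcongr
        exact_mod_cast hc
      have h4 : (S.card : ℚ) ^ Fintype.card T * 2 ^ Fintype.card Λ ≤
          (S.card : ℚ) ^ Fintype.card T * 2 ^ Fintype.card T := by
        gcongr
        norm_num
      have h5 := h3.trans h4
      rw [mul_comm, mul_pow]
      exact_mod_cast h5
    have hT0 : Fintype.card T ≠ 0 := Fintype.card_ne_zero
    have hle : U.card ≤ 2 * S.card := le_of_pow_le_pow_left₀ hT0 (Nat.zero_le _) hkey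
    have hSU : S ⊆ U := by
      rw [hS]
      exact Finset.filter_subset _ _
    have hcard : (U \ S).card < 2 ^ s := by
      rw [Finset.card_sdiff_of_subset hSU]
      have := Finset.card_le_card hSU
      rw [pow_succ] at hU
      omega
    obtain ⟨A, hA1, hA2, hA3⟩ := ih (U \ S) hcard
    by_cases hne : S = ∅
    · -- then `U` is empty
      have hU0 : U = ∅ := by
        rw [hne, Finset.card_empty] at hle
        rw [← Finset.card_eq_zero]
        omega
      subst hU0
      exact ⟨∅, by simp, by simp, by simp⟩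
    · refine ⟨insert a A, (Finset.card_insert_le _ _).trans (by omega), ?_, ?_⟩
      · intro b hb
        rcases Finset.mem_insert.1 hb with rfl | hb
        · obtain ⟨φ, hφ⟩ := Finset.nonempty_iff_ne_empty.2 hne
          rw [hS, Finset.mem_filter] at hφ
          obtain ⟨-, ψ, h1, h2, -⟩ := hφ
          refine ⟨ψ, ?_, h2⟩
          rw [hP, Fintype.mem_piFinset] at h1
          exact h1
        · obtain ⟨ψ, h1, h2⟩ := hA2 b hb
          exact ⟨ψ, fun t => (Finset.mem_sdiff.1 (h1 t)).1, h2⟩
      · intro φ hφ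
        by_cases hφS : φ ∈ S
        · rw [hS, Finset.mem_filter] at hφS
          obtain ⟨-, ψ, h1, h2, t, h3⟩ := hφS
          refine ⟨ψ, ?_, ⟨t, h3⟩, ?_⟩
          · rw [hP, Fintype.mem_piFinset] at h1
            exact h1
          · rw [h2]
            exact Finset.mem_insert_self _ _
        · obtain ⟨ψ, h1, h2, h3⟩ := hA3 φ (Finset.mem_sdiff.2 ⟨hφ, hφS⟩)
          exact ⟨ψ, fun t => (Finset.mem_sdiff.1 (h1 t)).1, h2, Finset.mem_insert_of_mem h3⟩

end Pool.Agent.TH706.NE
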