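import Mathlib
import Pool.Agent.H679R2.M1.Defs

/-!
# From a square of 3-CNF formulas to one instance of the clique problem
-/

namespace Pool.Agent.TH706.NE

open Pool.Agent.H679R2.M1 (Clause Sat)

lemma not_cliqueFree_iff_hom {V β : Type} [Fintype β] (G : SimpleGraph V) :
    ¬ G.CliqueFree (Fintype.card β) ↔ ∃ f : β → V, ∀ i j, i ≠ j → G.Adj (f i) (f j) := by
  constructor
  · intro h
    unfold SimpleGraph.CliqueFree at h
    push Not at h
    obtain ⟨s, hs⟩ := h
    have e : β ≃ s := Fintype.equivOfCardEq (by rw [Fintype.card_coe, hs.2])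
    refine ⟨fun b => (e b : V), fun i j hij => hs.1 (e i).2 (e j).2 ?_⟩
    intro h
    exact hij (e.injective (Subtype.ext h))
  · rintro ⟨f, hf⟩ h
    have hinj : Function.Injective f := by
      intro i j hij
      by_contra hne
      have := hf i j hne
      rw [hij] at this
      exact G.loopless.irrefl _ this
    refine h (Finset.univ.map ⟨f, hinj⟩) ⟨?_, ?_⟩
    · intro a ha b hb hab
      rw [Finset.mem_coe, Finset.mem_map] at ha hb
      obtain ⟨i, -, rfl⟩ := ha
      obtain ⟨j, -, rfl⟩ := hb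
      exact hf i j fun h => hab (by rw [h])
    · rw [Finset.card_map, Finset.card_univ]

section

variable {n k m t : ℕ}

/-- The vertices: a side, a number, three blocks, and an assignment for each of them. -/
abbrev Vtx (t k m : ℕ) : Type := Bool × Fin t × (Fin 3 → Fin k) × (Fin 3 → Fin m → Bool)

/-- two assignments of triples of blocks agree on the common blocks -/
def Cons (p q : (Fin 3 → Fin k) × (Fin 3 → Fin m → Bool)) : Prop :=
  ∀ i j, p.1 i = q.1 j → p.2 i = q.2 j

/-- the clause is falsified by the assignment of the triple of blocks -/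
def Fals (e : Fin n → Fin k × Fin m) (p : (Fin 3 → Fin k) × (Fin 3 → Fin m → Bool))
    (c : Clause n 3) : Prop :=
  ∀ l ∈ c.1, ∃ i, p.1 i = (e l.1).1 ∧ p.2 i (e l.1).2 ≠ l.2

lemma Cons.symm {p q : (Fin 3 → Fin k) × (Fin 3 → Fin m → Bool)} (h : Cons p q) : Cons q p :=
  fun i j hij => (h j i hij.symm).symm

/-- adjacency between a left vertex and a right vertex -/
def Cross (e : Fin n → Fin k × Fin m) (ψ : Fin t × Fin t → Clause n 3 → Bool)
    (u v : Fin t × (Fin 3 → Fin k) × (Fin 3 → Fin m → Bool)) : Prop :=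
  Cons u.2 v.2 ∧ (u.2.1 = v.2.1 → ∀ c, Fals e u.2 c → ψ (u.1, v.1) c = false)

/-- adjacency on one side -/
def Same (u v : Fin t × (Fin 3 → Fin k) × (Fin 3 → Fin m → Bool)) : Prop :=
  u.1 = v.1 ∧ u.2.1 ≠ v.2.1 ∧ Cons u.2 v.2

/-- adjacency -/
def AdjV (e : Fin n → Fin k × Fin m) (ψ : Fin t × Fin t → Clause n 3 → Bool)
    (u v : Vtx t k m) : Prop :=
  (u.1 = v.1 ∧ Same u.2 v.2) ∨ (u.1 = false ∧ v.1 = true ∧ Cross e ψ u.2 v.2) ∨
    (u.1 = true ∧ v.1 = false ∧ Cross e ψ v.2 u.2)

/-- the graph -/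
def GV (e : Fin n → Fin k × Fin m) (ψ : Fin t × Fin t → Clause n 3 → Bool) :
    SimpleGraph (Vtx t k m) where
  Adj := AdjV e ψ
  symm := ⟨by
    rintro u v (⟨h1, h2, h3, h4⟩ | ⟨h1, h2, h3⟩ | ⟨h1, h2, h3⟩)
    · exact Or.inl ⟨h1.symm, h2.symm, fun h => h3 h.symm, h4.symm⟩
    · exact Or.inr (Or.inr ⟨h2, h1, h3⟩)
    · exact Or.inr (Or.inl ⟨h2, h1, h3⟩)⟩
  loopless := ⟨by
    rintro u (⟨h1, h2, h3, h4⟩ | ⟨h1, h2, h3⟩ | ⟨h1, h2, h3⟩)
    · exact h3 rfl
    · rw [h1] at h2
      exact absurd h2 (by decide)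
    · rw [h1] at h2
      exact absurd h2 (by decide)⟩

/-- the blocks of a clause with at most three literals are covered by a triple -/
lemma exists_triple (e : Fin n → Fin k × Fin m) (hk : 0 < k) (c : Clause n 3) :
    ∃ τ : Fin 3 → Fin k, ∀ l ∈ c.1, ∃ i, τ i = (e l.1).1 := by
  classical
  obtain ⟨L, hL⟩ : ∃ L : List (Fin k), L = c.1.toList.map fun l => (e l.1).1 := ⟨_, rfl⟩
  have hlen : L.length ≤ 3 := by
    rw [hL, List.length_map, Finset.length_toList]
    exact c.2
  refine ⟨fun i => L.getD i ⟨0, hk⟩, fun l hl => ?_⟩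
  have hmem : (e l.1).1 ∈ L := by
    rw [hL, List.mem_map]
    exact ⟨l, Finset.mem_toList.2 hl, rfl⟩
  obtain ⟨i, hi, he⟩ := List.mem_iff_getElem.1 hmem
  refine ⟨⟨i, by omega⟩, ?_⟩
  show L.getD i _ = _
  rw [List.getD_eq_getElem _ _ hi, he]

theorem clique_iff (e : Fin n → Fin k × Fin m) (he : Function.Injective e) (hk : 0 < k)
    (ψ : Fin t × Fin t → Clause n 3 → Bool) :
    ¬ (GV e ψ).CliqueFree (Fintype.card (Bool × (Fin 3 → Fin k))) ↔ ∃ p, Sat (ψ p) := by
  classical
  rw [not_cliqueFree_iff_hom]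
  constructor
  · rintro ⟨f, hf⟩
    -- the vertices of the clique have different sides and triples
    obtain ⟨h, hh⟩ : ∃ h : Bool × (Fin 3 → Fin k) → Bool × (Fin 3 → Fin k),
      h = fun i => ((f i).1, (f i).2.2.1) := ⟨_, rfl⟩
    have hinj : Function.Injective h := by
      intro i j hij
      by_contra hne
      rw [hh] at hij
      have hij' : ((f i).1, (f i).2.2.1) = ((f j).1, (f j).2.2.1) := hij
      have h1 : (f i).1 = (f j).1 := (Prod.mk.inj hij').1
      have h2 : (f i).2.2.1 = (f j).2.2.1 := (Prod.mk.inj hij').2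
      rcases hf i j hne with ⟨-, -, h4, -⟩ | ⟨h3, h4, -⟩ | ⟨h3, h4, -⟩
      · exact h4 h2
      · rw [h3, h4] at h1
        exact absurd h1 (by decide)
      · rw [h3, h4] at h1
        exact absurd h1 (by decide)
    have hsurj := Finite.surjective_of_injective hinj
    choose g hg using hsurj
    -- the vertex with given side and triple
    obtain ⟨u, hu⟩ : ∃ u : Bool × (Fin 3 → Fin k) → Vtx t k m, u = fun z => f (g z) := ⟨_, rfl⟩
    have hu1 : ∀ z, (u z).1 = z.1 := fun z => by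
      have := hg z
      rw [hh] at this
      rw [hu]
      exact congrArg Prod.fst this
    have hu2 : ∀ z, (u z).2.2.1 = z.2 := fun z => by
      have := hg z
      rw [hh] at this
      rw [hu]
      exact congrArg Prod.snd this
    have hadj : ∀ z z', z ≠ z' → AdjV e ψ (u z) (u z') := fun z z' hz => by
      rw [hu]
      refine hf _ _ fun h3 => hz ?_
      rw [← hg z, ← hg z', h3]
    have hcross : ∀ τ τ', Cross e ψ (u (false, τ)).2 (u (true, τ')).2 := fun τ τ' => by
      rcases hadj (false, τ) (true, τ') (by simp) with ⟨h1, -⟩ | ⟨-, -, h1⟩ | ⟨h1, -⟩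
      · rw [hu1, hu1] at h1
        exact absurd h1 (by simp)
      · exact h1
      · rw [hu1] at h1
        exact absurd h1 (by simp)
    have hsame : ∀ s τ τ', (u (s, τ)).2.1 = (u (s, τ')).2.1 := fun s τ τ' => by
      by_cases hτ : τ = τ'
      · rw [hτ]
      · rcases hadj (s, τ) (s, τ') (by simpa using hτ) with ⟨-, h1, -⟩ | ⟨h1, h2, -⟩ | ⟨h1, h2, -⟩
        · exact h1
        · rw [hu1] at h1 h2
          rw [h1] at h2
          exact absurd h2 (by simp)
        · rw [hu1] at h1 h2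
          rw [h1] at h2
          exact absurd h2 (by simp)
    obtain ⟨τ₀, -⟩ : ∃ τ₀ : Fin 3 → Fin k, True := ⟨fun _ => ⟨0, hk⟩, trivial⟩
    obtain ⟨α, hα⟩ : ∃ α : Fin k → Fin m → Bool, α = fun β => (u (true, fun _ => β)).2.2.2 0 :=
      ⟨_, rfl⟩
    have hval : ∀ τ i, (u (false, τ)).2.2.2 i = α (τ i) := fun τ i => by
      have h1 := (hcross τ (fun _ => τ i)).1 i 0
      rw [hα]
      refine h1 ?_
      rw [hu2, hu2]
    refine ⟨((u (false, τ₀)).2.1, (u (true, τ₀)).2.1), fun x => α (e x).1 (e x).2, fun c hc => ?_⟩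
    obtain ⟨τ, hτ⟩ := exists_triple e hk c
    have h1 := (hcross τ τ).2 (by rw [hu2, hu2]) c
    rw [hsame false τ τ₀, hsame true τ τ₀] at h1
    have h2 : ¬ Fals e (u (false, τ)).2.2 c := fun h => by
      rw [h1 h] at hc
      exact absurd hc (by decide)
    unfold Fals at h2
    push Not at h2
    obtain ⟨l, hl, h3⟩ := h2
    obtain ⟨i, hi⟩ := hτ l hl
    refine ⟨l, hl, ?_⟩
    have h4 := h3 i (by rw [hu2]; exact hi)
    rw [hval] at h4
    show α (e l.1).1 (e l.1).2 = l.2
    rw [← hi]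
    exact h4
  · rintro ⟨p, A, hA⟩
    obtain ⟨α, hα⟩ : ∃ α : Fin k → Fin m → Bool, ∀ x, α (e x).1 (e x).2 = A x := by
      refine ⟨fun β z => Function.extend e A (fun _ => false) (β, z), fun x => ?_⟩
      exact he.extend_apply A _ x
    refine ⟨fun z => (z.1, (if z.1 = true then p.2 else p.1), z.2, fun i => α (z.2 i)), ?_⟩
    have hcons : ∀ τ τ' : Fin 3 → Fin k,
        Cons (τ, fun i => α (τ i)) (τ', fun i => α (τ' i)) := fun τ τ' i j hij => by
      show α (τ i) = α (τ' j)
      have : τ i = τ' j := hij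
      rw [this]
    have hcross : ∀ τ τ' : Fin 3 → Fin k,
        Cross e ψ (p.1, τ, fun i => α (τ i)) (p.2, τ', fun i => α (τ' i)) := fun τ τ' => by
      refine ⟨hcons τ τ', fun _ c hc => ?_⟩
      by_contra h
      have h1 : ψ p c = true := by
        have : ψ (p.1, p.2) c ≠ false := h
        simpa using this
      obtain ⟨l, hl, h2⟩ := hA c h1
      obtain ⟨i, h3, h4⟩ := hc l hl
      have h3' : τ i = (e l.1).1 := h3
      have h4' : α (τ i) (e l.1).2 ≠ l.2 := h4
      rw [h3', hα] at h4'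
      exact h4' h2
    rintro ⟨s, τ⟩ ⟨s', τ'⟩ hne
    cases s <;> cases s'
    · refine Or.inl ⟨rfl, rfl, ?_, hcons τ τ'⟩
      intro h
      exact hne (by rw [show τ = τ' from h])
    · exact Or.inr (Or.inl ⟨rfl, rfl, hcross τ τ'⟩)
    · exact Or.inr (Or.inr ⟨rfl, rfl, hcross τ' τ⟩)
    · refine Or.inl ⟨rfl, rfl, ?_, hcons τ τ'⟩
      intro h
      exact hne (by rw [show τ = τ' from h])

end

end Pool.Agent.TH706.NE
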