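import Mathlib
import Pool.Agent.H679R2.M1.Defs
import Pool.Agent.TH706.NE.Circ
import Pool.Agent.TH706.NE.Cover
import Pool.Agent.TH706.NE.Graph

/-!
# The nondeterministic circuit
-/

namespace Pool.Agent.TH706.NE

open Pool.Agent.H679R2.M1 (Clause Sat)

/-- the size of the nondeterministic circuit -/
def bigSize (M T Λ sΓ sF : ℕ) : ℕ :=
  T * (11 * M + 3) + sΓ + (M + 1) * (sF + 11 * Λ + 6) + 4

theorem core {E T Cl Λ Q : Type} [Fintype T] [Nonempty T] [Fintype Cl] [Fintype Λ]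
    (F : (E ⊕ Q → Bool) → Option Λ → Bool) (sF : ℕ) (hF : Comp F sF)
    (O : (Λ → Bool) → Q → Bool)
    (Γ : (T × Cl → Bool) → E → Bool) (sΓ : ℕ) (hΓ : Comp Γ sΓ)
    (U : (Cl → Bool) → Prop)
    (hex : ∀ ψ : T × Cl → Bool, ∃ a : Q → Bool, a = O (fun l => F (Sum.elim (Γ ψ) a) (some l)))
    (hright : ∀ (ψ : T × Cl → Bool) (a : Q → Bool),
      a = O (fun l => F (Sum.elim (Γ ψ) a) (some l)) →
        (F (Sum.elim (Γ ψ) a) none = false ↔ ∀ t, U (fun c => ψ (t, c))))
    (hcard : Fintype.card Λ ≤ Fintype.card T) :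
    ∃ V : (Cl ⊕ (T × Cl) → Bool) → Bool,
      C1 V (bigSize (Fintype.card Cl) (Fintype.card T) (Fintype.card Λ) sΓ sF) ∧
        ∀ x, U x ↔ ∃ y, V (Sum.elim x y) = true := by
  classical
  -- the transcripts
  choose ans hans using hex
  obtain ⟨Qf, hQf⟩ : ∃ Qf : (T → Cl → Bool) → Λ → Bool, Qf = fun ψ l =>
      F (Sum.elim (Γ fun p => ψ p.1 p.2) (ans fun p => ψ p.1 p.2)) (some l) := ⟨_, rfl⟩
  have hUcard : (Finset.univ.filter fun x : Cl → Bool => U x).card < 2 ^ (Fintype.card Cl + 1) := by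
    refine (Finset.card_le_univ _).trans_lt ?_
    rw [Fintype.card_fun, Fintype.card_bool]
    exact Nat.pow_lt_pow_right (by norm_num) (by omega)
  obtain ⟨A, hA1, hA2, hA3⟩ := cover hcard Qf (Fintype.card Cl + 1) _ hUcard
  have hans' : ∀ ψ : T → Cl → Bool, ans (fun p => ψ p.1 p.2) = O (Qf ψ) := fun ψ => by
    rw [hQf]
    exact hans _
  -- the circuit
  obtain ⟨eq, heq⟩ : ∃ eq : (Λ → Bool) → (Option Λ → Bool) → Bool, ∀ a u, eq a u = true ↔
      ∀ l, u (some l) = a l := ⟨fun a u => decide (∀ l, u (some l) = a l), by simp⟩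
  obtain ⟨r, hr⟩ : ∃ r : (Λ → Bool) → (E → Bool) → Bool, r = fun a z =>
      (eq a (F (Sum.elim z (O a))) && !F (Sum.elim z (O a)) none) := ⟨_, rfl⟩
  have hrC : ∀ a, C1 (r a) (sF + (11 * Fintype.card Λ + 3)) := by
    intro a
    have h0 : Comp (fun (z : E → Bool) => (Sum.elim z (O a) : E ⊕ Q → Bool)) 0 := by
      refine Comp.wires fun k => ?_
      rcases k with k | k
      · exact Or.inl ⟨k, fun x => rfl⟩
      · exact Or.inr ⟨O a k, fun x => rfl⟩
    have h1 := h0.comp hF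
    rw [zero_add] at h1
    have h2 : C1 (fun u : Option Λ → Bool => (eq a u && !u none))
        ((Finset.univ : Finset Λ).card * (9 + 2) + 1 + 2) := by
      refine C1.and (C1.ball' Finset.univ (fun l u => (u (some l) == a l)) (fun u => ?_)
        fun l _ => ?_) ?_
      · rw [heq]
        simp
      · exact ((C1.input (some l)).xnor (C1.const (a l))).mono (by norm_num)
      · exact ((C1.input (none : Option Λ)).not).mono (by norm_num)
    have h3 := h1.comp h2
    rw [hr]
    refine Comp.mono h3 ?_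
    rw [Finset.card_univ]
    omega
  obtain ⟨R, hR⟩ : ∃ R : (E → Bool) → Bool, ∀ z, R z = true ↔ ∃ a ∈ A, r a z = true :=
    ⟨fun z => decide (∃ a ∈ A, r a z = true), by simp⟩
  have hRC : C1 R ((Fintype.card Cl + 1) * (sF + 11 * Fintype.card Λ + 6) + 1) := by
    refine (C1.bex' A r hR fun a _ => hrC a).mono ?_
    have : A.card * (sF + (11 * Fintype.card Λ + 3) + 3) ≤
        (Fintype.card Cl + 1) * (sF + 11 * Fintype.card Λ + 6) :=
      Nat.mul_le_mul hA1 (by omega)
    omega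
  obtain ⟨Et, hEt⟩ : ∃ Et : T → (Cl ⊕ (T × Cl) → Bool) → Bool, ∀ t z, Et t z = true ↔
      ∀ c, z (Sum.inr (t, c)) = z (Sum.inl c) :=
    ⟨fun t z => decide (∀ c, z (Sum.inr (t, c)) = z (Sum.inl c)), by simp⟩
  obtain ⟨Ef, hEf⟩ : ∃ Ef : (Cl ⊕ (T × Cl) → Bool) → Bool, ∀ z, Ef z = true ↔
      ∃ t, Et t z = true := ⟨fun z => decide (∃ t, Et t z = true), by simp⟩
  have hEC : C1 Ef (Fintype.card T * (Fintype.card Cl * (9 + 2) + 3) + 1) := by
    refine (C1.bex' Finset.univ Et (fun z => ?_) fun t _ =>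
      C1.ball' Finset.univ (fun c z => (z (Sum.inr (t, c)) == z (Sum.inl c))) (fun z => ?_)
        fun c _ => ?_).mono le_rfl
    · rw [hEf]
      simp
    · rw [hEt]
      simp
    · exact ((C1.input _).xnor (C1.input _)).mono (by norm_num)
  have hΓC : Comp (fun z : Cl ⊕ (T × Cl) → Bool => Γ (fun p => z (Sum.inr p))) sΓ := by
    have h0 : Comp (fun (z : Cl ⊕ (T × Cl) → Bool) (p : T × Cl) => z (Sum.inr p)) 0 :=
      Comp.wires fun p => Or.inl ⟨Sum.inr p, fun x => rfl⟩
    have h1 := h0.comp hΓ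
    rwa [zero_add] at h1
  refine ⟨fun z => Ef z && R (Γ (fun p => z (Sum.inr p))), ?_, fun x => ?_⟩
  · have h1 : C1 (fun z : Cl ⊕ (T × Cl) → Bool => R (Γ (fun p => z (Sum.inr p))))
        (sΓ + ((Fintype.card Cl + 1) * (sF + 11 * Fintype.card Λ + 6) + 1)) := hΓC.comp hRC
    refine (hEC.and h1).mono ?_
    unfold bigSize
    have : Fintype.card T * (Fintype.card Cl * (9 + 2) + 3) =
      Fintype.card T * (11 * Fintype.card Cl + 3) := by ring
    omega
  · constructor
    · intro hx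
      obtain ⟨ψ, h1, ⟨t, h2⟩, h3⟩ := hA3 x (Finset.mem_filter.2 ⟨Finset.mem_univ _, hx⟩)
      refine ⟨fun p => ψ p.1 p.2, ?_⟩
      rw [Bool.and_eq_true]
      refine ⟨?_, ?_⟩
      · rw [hEf]
        refine ⟨t, (hEt _ _).2 fun c => ?_⟩
        simp only [Sum.elim_inr, Sum.elim_inl]
        rw [h2]
      · rw [hR]
        refine ⟨Qf ψ, h3, ?_⟩
        rw [hr]
        simp only [Bool.and_eq_true, heq, Bool.not_eq_true', Sum.elim_inr]
        rw [← hans' ψ]
        refine ⟨fun l => ?_, ?_⟩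
        · rw [hQf]
        · rw [hright (fun p => ψ p.1 p.2) _ (hans _)]
          intro t
          exact (Finset.mem_filter.1 (h1 t)).2
    · rintro ⟨y, hy⟩
      rw [Bool.and_eq_true] at hy
      obtain ⟨h1, h2⟩ := hy
      rw [hEf] at h1
      obtain ⟨t, ht⟩ := h1
      rw [hEt] at ht
      simp only [Sum.elim_inr, Sum.elim_inl] at ht
      rw [hR] at h2
      obtain ⟨a, ha, h3⟩ := h2
      rw [hr] at h3
      simp only [Bool.and_eq_true, heq, Bool.not_eq_true', Sum.elim_inr] at h3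
      obtain ⟨h4, h5⟩ := h3
      have h6 : O a = O (fun l => F (Sum.elim (Γ y) (O a)) (some l)) := by
        congr 1
        funext l
        exact (h4 l).symm
      have h7 := (hright y (O a) h6).1 h5 t
      have h8 : (fun c => y (t, c)) = x := funext ht
      rwa [h8] at h7

section graph

variable {n k m t : ℕ}

lemma cross_c1 (e : Fin n → Fin k × Fin m)
    (u v : Fin t × (Fin 3 → Fin k) × (Fin 3 → Fin m → Bool)) :
    ∃ f : ((Fin t × Fin t) × Clause n 3 → Bool) → Bool, C1 f (3 * Fintype.card (Clause n 3)) ∧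
      ∀ ψ, f ψ = true ↔ Cross e (fun p c => ψ (p, c)) u v := by
  classical
  by_cases h1 : Cons u.2 v.2
  · by_cases h2 : u.2.1 = v.2.1
    · refine ⟨fun ψ => decide (∀ c ∈ Finset.univ.filter (fun c => Fals e u.2 c),
        (!ψ ((u.1, v.1), c)) = true), ?_, fun ψ => ?_⟩
      · refine (C1.ball' (Finset.univ.filter (fun c => Fals e u.2 c))
          (fun c (ψ : (Fin t × Fin t) × Clause n 3 → Bool) => !ψ ((u.1, v.1), c))
          (fun ψ => ?_) fun c _ => (C1.input ((u.1, v.1), c)).not).mono ?_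
        · rw [decide_eq_true_eq]
        · have := Finset.card_le_univ (Finset.univ.filter (fun c => Fals e u.2 c))
          omega
      · unfold Cross
        simp only [Finset.mem_filter, Finset.mem_univ, true_and, decide_eq_true_eq,
          Bool.not_eq_true']
        exact ⟨fun h => ⟨h1, fun _ c hc => h c hc⟩, fun h c hc => h.2 h2 c hc⟩
    · exact ⟨fun _ => true, (C1.const true).mono (Nat.zero_le _), fun ψ =>
        ⟨fun _ => ⟨h1, fun h => absurd h h2⟩, fun _ => rfl⟩⟩
  · exact ⟨fun _ => false, (C1.const false).mono (Nat.zero_le _), fun ψ =>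
      ⟨fun h => absurd h Bool.false_ne_true, fun h => absurd h.1 h1⟩⟩

lemma adj_c1 (e : Fin n → Fin k × Fin m) (u v : Vtx t k m) :
    ∃ f : ((Fin t × Fin t) × Clause n 3 → Bool) → Bool, C1 f (3 * Fintype.card (Clause n 3)) ∧
      ∀ ψ, f ψ = true ↔ (GV e (fun p c => ψ (p, c))).Adj u v := by
  classical
  by_cases h : u.1 = v.1
  · refine ⟨fun _ => decide (Same u.2 v.2), (C1.const _).mono (Nat.zero_le _), fun ψ => ?_⟩
    rw [decide_eq_true_eq]
    constructor
    · intro h1
      exact Or.inl ⟨h, h1⟩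
    · rintro (⟨-, h1⟩ | ⟨h1, h2, -⟩ | ⟨h1, h2, -⟩)
      · exact h1
      · rw [h1, h2] at h
        exact absurd h (by decide)
      · rw [h1, h2] at h
        exact absurd h (by decide)
  · by_cases hu : u.1 = false
    · have hv : v.1 = true := by
        rw [hu] at h
        cases hv : v.1
        · exact absurd hv.symm h
        · rfl
      obtain ⟨f, h1, h2⟩ := cross_c1 e u.2 v.2
      refine ⟨f, h1, fun ψ => (h2 ψ).trans ⟨fun h3 => Or.inr (Or.inl ⟨hu, hv, h3⟩), ?_⟩⟩
      rintro (⟨h3, -⟩ | ⟨-, -, h3⟩ | ⟨h3, -, -⟩)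
      · exact absurd h3 h
      · exact h3
      · rw [hu] at h3
        exact absurd h3 (by decide)
    · have hu' : u.1 = true := by simpa using hu
      have hv : v.1 = false := by
        rw [hu'] at h
        cases hv : v.1
        · rfl
        · exact absurd hv.symm h
      obtain ⟨f, h1, h2⟩ := cross_c1 e v.2 u.2
      refine ⟨f, h1, fun ψ => (h2 ψ).trans ⟨fun h3 => Or.inr (Or.inr ⟨hu', hv, h3⟩), ?_⟩⟩
      rintro (⟨h3, -⟩ | ⟨h3, -, -⟩ | ⟨-, -, h3⟩)
      · exact absurd h3 h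
      · exact absurd h3 hu
      · exact h3

end graph

end Pool.Agent.TH706.NE
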