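import Mathlib
import Pool.Agent.TH706.NE.Defs
import Pool.Agent.TH706.NE.Core

/-!
# Estimates
-/

namespace Pool.Agent.TH706.NE

open Filter
open Pool.Agent.H679R2.M1 (Clause Sat)

theorem card_clause (v d : ℕ) : Fintype.card (Clause v d) ≤ (2 * v + 1) ^ d := by
  classical
  let F : (Fin d → Option (Fin v × Bool)) → Clause v d := fun f =>
    ⟨(Finset.univ.image f).eraseNone, by
      calc (Finset.univ.image f).eraseNone.card ≤ (Finset.univ.image f).card := by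
            exact Finset.card_eraseNone_le _
        _ ≤ (Finset.univ : Finset (Fin d)).card := Finset.card_image_le
        _ = d := by simp⟩
  have hF : Function.Surjective F := by
    rintro ⟨c, hc⟩
    have hle : c.card ≤ d := hc
    let e := c.equivFin
    refine ⟨fun i => if h : i.val < c.card then some (e.symm ⟨i.val, h⟩).1 else none, ?_⟩
    apply Subtype.ext
    ext l
    simp only [F, Finset.mem_eraseNone, Finset.mem_image, Finset.mem_univ, true_and]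
    constructor
    · rintro ⟨i, hi⟩
      split_ifs at hi with h
      have := Option.some.inj hi
      rw [← this]
      exact (e.symm ⟨i.val, h⟩).2
    · intro hl
      refine ⟨⟨(e ⟨l, hl⟩).val, lt_of_lt_of_le (e ⟨l, hl⟩).2 hle⟩, ?_⟩
      have h : (e ⟨l, hl⟩).val < c.card := (e ⟨l, hl⟩).2
      rw [dif_pos h]
      have h2 : e.symm ⟨(e ⟨l, hl⟩).val, h⟩ = ⟨l, hl⟩ := by
        have : (⟨(e ⟨l, hl⟩).val, h⟩ : Fin c.card) = e ⟨l, hl⟩ := rfl
        rw [this, Equiv.symm_apply_apply]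
      rw [h2]
  calc Fintype.card (Clause v d) ≤ Fintype.card (Fin d → Option (Fin v × Bool)) :=
        Fintype.card_le_of_surjective F hF
    _ = (2 * v + 1) ^ d := by
        rw [Fintype.card_fun, Fintype.card_option, Fintype.card_prod, Fintype.card_fin,
          Fintype.card_bool, Fintype.card_fin, Nat.mul_comm v 2]

/-- the bound for the number of literals, plus one -/
def lits (G F c N : ℕ) : ℕ := 2 * (G * (Nat.log 2 (F * N ^ c) + 1)) + 1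

lemma lits_mono (G F c : ℕ) {N N' : ℕ} (h : N ≤ N') : lits G F c N ≤ lits G F c N' := by
  unfold lits
  have h1 : Nat.log 2 (F * N ^ c) ≤ Nat.log 2 (F * N' ^ c) :=
    Nat.log_mono_right (Nat.mul_le_mul_left _ (Nat.pow_le_pow_left h _))
  gcongr

lemma lits_le (G F c : ℕ) : ∃ A : ℝ, 1 ≤ A ∧ ∀ N : ℕ, 1 ≤ N →
    (lits G F c N : ℝ) ≤ A * (1 + Real.log N) := by
  have hl2 : 0 < Real.log 2 := Real.log_pos (by norm_num)
  have hF0 : 0 ≤ Real.log F := Real.log_natCast_nonneg F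
  refine ⟨2 * (G * ((Real.log F + c) / Real.log 2 + 1)) + 1, ?_, fun N hN => ?_⟩
  · have : 0 ≤ 2 * ((G : ℝ) * ((Real.log F + c) / Real.log 2 + 1)) := by positivity
    linarith
  have hN0 : 0 ≤ Real.log (N : ℝ) := Real.log_natCast_nonneg N
  have hNat : (Nat.log 2 (F * N ^ c) : ℝ) ≤ (Real.log F + c * Real.log N) / Real.log 2 := by
    rcases Nat.eq_zero_or_pos F with hF | hF
    · subst hF
      simp only [Nat.zero_mul, Nat.log_zero_right, Nat.cast_zero, Real.log_zero, zero_add]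
      positivity
    · have hM : F * N ^ c ≠ 0 := by positivity
      have h1 : (2 : ℝ) ^ (Nat.log 2 (F * N ^ c)) ≤ ((F * N ^ c : ℕ) : ℝ) := by
        exact_mod_cast Nat.pow_log_le_self 2 hM
      have h2 : Real.log ((2 : ℝ) ^ (Nat.log 2 (F * N ^ c))) ≤
          Real.log ((F * N ^ c : ℕ) : ℝ) := Real.log_le_log (by positivity) h1
      rw [Real.log_pow] at h2
      have h3 : Real.log ((F * N ^ c : ℕ) : ℝ) = Real.log F + c * Real.log N := by
        push_cast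
        rw [Real.log_mul (by positivity) (by positivity), Real.log_pow]
      rw [h3] at h2
      rw [le_div_iff₀ hl2]
      exact h2
  have h5 : (Nat.log 2 (F * N ^ c) : ℝ) ≤ (Real.log F + c) / Real.log 2 * (1 + Real.log N) := by
    refine hNat.trans ?_
    rw [div_mul_eq_mul_div]
    gcongr
    nlinarith [mul_nonneg hF0 hN0, Nat.cast_nonneg (α := ℝ) c]
  unfold lits
  push_cast
  have hG : (0 : ℝ) ≤ G := by positivity
  have h6 : (Nat.log 2 (F * N ^ c) : ℝ) + 1 ≤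
      ((Real.log F + c) / Real.log 2 + 1) * (1 + Real.log N) := by
    nlinarith
  have h7 := mul_le_mul_of_nonneg_left h6 hG
  nlinarith

/-- the bound for the number of query bits -/
noncomputable def Phi (G F c d : ℕ) (η : ℝ) (N : ℕ) : ℝ := G * (N : ℝ) ^ η * (lits G F c N : ℝ) ^ d

lemma Phi_mono (G F c d : ℕ) {η : ℝ} (hη : 0 ≤ η) {N N' : ℕ} (h : N ≤ N') :
    Phi G F c d η N ≤ Phi G F c d η N' := by
  unfold Phi
  have h1 : (N : ℝ) ^ η ≤ (N' : ℝ) ^ η :=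
    Real.rpow_le_rpow (Nat.cast_nonneg _) (by exact_mod_cast h) hη
  have h2 : (lits G F c N : ℝ) ≤ lits G F c N' := by exact_mod_cast lits_mono G F c h
  have h3 : (0 : ℝ) ≤ (N : ℝ) ^ η := Real.rpow_nonneg (Nat.cast_nonneg _) _
  gcongr

lemma Phi_nonneg (G F c d : ℕ) (η : ℝ) (N : ℕ) : 0 ≤ Phi G F c d η N := by
  unfold Phi
  positivity

lemma Phi_le (G F c d : ℕ) (η : ℝ) {σ : ℝ} (hσ : 0 < σ) : ∃ C : ℕ, 1 ≤ C ∧
    ∀ N : ℕ, 1 ≤ N → Phi G F c d η N ≤ C * (N : ℝ) ^ (η + σ) := by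
  obtain ⟨A, hA1, hA⟩ := lits_le G F c
  obtain ⟨τ, hτ⟩ : ∃ τ : ℝ, τ = σ / (d + 1) := ⟨_, rfl⟩
  have hτ0 : 0 < τ := by rw [hτ]; positivity
  have hτd : τ * d ≤ σ := by
    rw [hτ, div_mul_eq_mul_div, div_le_iff₀ (by positivity)]
    nlinarith
  obtain ⟨C, hC⟩ := exists_nat_ge (G * (A * (1 + 1 / τ)) ^ d)
  refine ⟨C + 1, by omega, fun N hN => ?_⟩
  have hN1 : (1 : ℝ) ≤ N := by exact_mod_cast hN
  have hN0 : (0 : ℝ) < N := by positivity
  have h1 : (1 : ℝ) ≤ (N : ℝ) ^ τ := Real.one_le_rpow hN1 hτ0.le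
  have h2 : Real.log N ≤ (N : ℝ) ^ τ / τ := Real.log_le_rpow_div hN0.le hτ0
  have h3 : (lits G F c N : ℝ) ≤ A * (1 + 1 / τ) * (N : ℝ) ^ τ := by
    refine (hA N hN).trans ?_
    have : 1 + Real.log N ≤ (1 + 1 / τ) * (N : ℝ) ^ τ := by
      have : (1 + 1 / τ) * (N : ℝ) ^ τ = (N : ℝ) ^ τ + (N : ℝ) ^ τ / τ := by ring
      linarith
    have := mul_le_mul_of_nonneg_left this (show (0 : ℝ) ≤ A by linarith)
    linarith
  have h4 : (lits G F c N : ℝ) ^ d ≤ (A * (1 + 1 / τ)) ^ d * (N : ℝ) ^ σ := by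
    calc (lits G F c N : ℝ) ^ d ≤ (A * (1 + 1 / τ) * (N : ℝ) ^ τ) ^ d := by gcongr
      _ = (A * (1 + 1 / τ)) ^ d * (N : ℝ) ^ (τ * d) := by
          rw [mul_pow, ← Real.rpow_natCast ((N : ℝ) ^ τ), ← Real.rpow_mul hN0.le]
      _ ≤ _ := by
          have := Real.rpow_le_rpow_of_exponent_le hN1 hτd
          gcongr
  unfold Phi
  have h5 : 0 ≤ (N : ℝ) ^ η := Real.rpow_nonneg hN0.le _
  calc (G : ℝ) * (N : ℝ) ^ η * (lits G F c N : ℝ) ^ d
      ≤ G * (N : ℝ) ^ η * ((A * (1 + 1 / τ)) ^ d * (N : ℝ) ^ σ) := by gcongr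
    _ = (G * (A * (1 + 1 / τ)) ^ d) * (N : ℝ) ^ (η + σ) := by
        rw [Real.rpow_add hN0]
        ring
    _ ≤ ((C + 1 : ℕ) : ℝ) * (N : ℝ) ^ (η + σ) := by
        have : 0 ≤ (N : ℝ) ^ (η + σ) := Real.rpow_nonneg hN0.le _
        push_cast
        gcongr
        linarith

/-- The choice of the number of formulas. -/
lemma exists_t (G F c d : ℕ) {η : ℝ} (hη0 : 0 ≤ η) (p C : ℕ) (hC : 1 ≤ C)
    (hp : 1 ≤ p * ((2 - η) / 2)) (hη : η < 2)
    (hCN : ∀ N : ℕ, 1 ≤ N → Phi G F c d η N ≤ C * (N : ℝ) ^ (η + (2 - η) / 2))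
    (B : ℕ) (hB : 1 ≤ B) : ∃ t : ℕ, 1 ≤ t ∧ t ≤ (C * B ^ 2) ^ p ∧
      Phi G F c d η (t * B) ≤ ((t * t : ℕ) : ℝ) ∧
      ((t * t : ℕ) : ℝ) ≤ 4 * Phi G F c d η (t * B) + 1 := by
  classical
  obtain ⟨t₁, ht₁⟩ : ∃ t₁, t₁ = (C * B ^ 2) ^ p := ⟨_, rfl⟩
  have hCB : 1 ≤ C * B ^ 2 := Nat.mul_pos hC (by positivity)
  have ht₁1 : 1 ≤ t₁ := by
    rw [ht₁]
    exact Nat.one_le_pow _ _ hCB
  have hP₁ : 1 ≤ t₁ ∧ Phi G F c d η (t₁ * B) ≤ ((t₁ * t₁ : ℕ) : ℝ) := by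
    refine ⟨ht₁1, (hCN (t₁ * B) (Nat.mul_pos ht₁1 hB)).trans ?_⟩
    have hB1 : (1 : ℝ) ≤ B := by exact_mod_cast hB
    have ht1 : (1 : ℝ) ≤ t₁ := by exact_mod_cast ht₁1
    have ht0 : (0 : ℝ) < t₁ := by linarith
    push_cast
    rw [Real.mul_rpow (by positivity) (by positivity)]
    -- `C * B ^ θ ≤ t ^ (2 - θ)`
    have h1 : (B : ℝ) ^ (η + (2 - η) / 2) ≤ (B : ℝ) ^ 2 := by
      rw [← Real.rpow_natCast (B : ℝ) 2]
      apply Real.rpow_le_rpow_of_exponent_le hB1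
      push_cast
      linarith
    have h2 : (C : ℝ) * (B : ℝ) ^ 2 ≤ (t₁ : ℝ) ^ ((2 - η) / 2) := by
      have h3 : (t₁ : ℝ) = ((C : ℝ) * (B : ℝ) ^ 2) ^ p := by
        rw [ht₁]
        push_cast
        rfl
      have h4 : (1 : ℝ) ≤ (C : ℝ) * (B : ℝ) ^ 2 := by exact_mod_cast hCB
      rw [h3, ← Real.rpow_natCast ((C : ℝ) * (B : ℝ) ^ 2) p, ← Real.rpow_mul (by linarith)]
      calc (C : ℝ) * (B : ℝ) ^ 2 = ((C : ℝ) * (B : ℝ) ^ 2) ^ (1 : ℝ) := (Real.rpow_one _).symm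
        _ ≤ _ := Real.rpow_le_rpow_of_exponent_le h4 hp
    have h3 : (t₁ : ℝ) * t₁ = (t₁ : ℝ) ^ (η + (2 - η) / 2) * (t₁ : ℝ) ^ ((2 - η) / 2) := by
      rw [← Real.rpow_add ht0]
      have : η + (2 - η) / 2 + (2 - η) / 2 = (2 : ℕ) := by push_cast; ring
      rw [this, Real.rpow_natCast]
      ring
    rw [h3]
    have h4 : 0 ≤ (t₁ : ℝ) ^ (η + (2 - η) / 2) := Real.rpow_nonneg ht0.le _
    calc (C : ℝ) * ((t₁ : ℝ) ^ (η + (2 - η) / 2) * (B : ℝ) ^ (η + (2 - η) / 2))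
        = (t₁ : ℝ) ^ (η + (2 - η) / 2) * (C * (B : ℝ) ^ (η + (2 - η) / 2)) := by ring
      _ ≤ (t₁ : ℝ) ^ (η + (2 - η) / 2) * (C * (B : ℝ) ^ 2) := by gcongr
      _ ≤ _ := by gcongr
  have hex : ∃ t : ℕ, 1 ≤ t ∧ Phi G F c d η (t * B) ≤ ((t * t : ℕ) : ℝ) := ⟨t₁, hP₁⟩
  obtain ⟨t, ht⟩ : ∃ t, t = Nat.find hex := ⟨_, rfl⟩
  have h1 := Nat.find_spec hex
  rw [← ht] at h1
  refine ⟨t, h1.1, ?_, h1.2, ?_⟩
  · rw [← ht₁, ht]
    exact Nat.find_min' hex hP₁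
  · by_cases h2 : t = 1
    · have := Phi_nonneg G F c d η (t * B)
      rw [h2]
      rw [h2] at this
      push_cast
      linarith
    · have h3 : 2 ≤ t := by omega
      have h4 : t - 1 < Nat.find hex := by omega
      have h5 := Nat.find_min hex h4
      push Not at h5
      have h6 := h5 (by omega)
      have h7 := Phi_mono G F c d hη0 (show (t - 1) * B ≤ t * B from
        Nat.mul_le_mul_right _ (by omega))
      have h8 : (t * t : ℕ) ≤ 4 * ((t - 1) * (t - 1)) := by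
        obtain ⟨u, rfl⟩ : ∃ u, t = u + 1 := ⟨t - 1, by omega⟩
        simp only [Nat.add_sub_cancel]
        nlinarith
      have h9 : ((t * t : ℕ) : ℝ) ≤ 4 * (((t - 1) * (t - 1) : ℕ) : ℝ) := by exact_mod_cast h8
      linarith

end Pool.Agent.TH706.NE
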