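import Mathlib
import Pool.Agent.TH706.NE.Defs
import Pool.Agent.TH706.NE.Core

/-!
# The finite version of the theorem
-/

namespace Pool.Agent.TH706.NE

open Pool.Agent.H679R2.M1 (Clause Sat)

lemma card_vtx (t k m : ℕ) :
    Fintype.card (Vtx t k m) = 2 * (t * (k ^ 3 * (2 ^ m) ^ 3)) := by
  simp [Vtx]

lemma card_side (k : ℕ) : Fintype.card (Bool × (Fin 3 → Fin k)) = 2 * k ^ 3 := by
  simp

lemma ncomp_reindex {ι κ : Type} [Fintype κ] {P : (ι → Bool) → Prop} {V : (ι ⊕ κ → Bool) → Bool}
    {s : ℕ} (hV : C1 V s) (h : ∀ x, P x ↔ ∃ y, V (Sum.elim x y) = true) :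
    NComp P (Fintype.card κ) s := by
  have e := Fintype.equivFin κ
  refine ⟨fun z => V (fun i => z (i.map id e)), ?_, fun x => ?_⟩
  · have h0 : Comp (fun (z : ι ⊕ Fin (Fintype.card κ) → Bool) (i : ι ⊕ κ) => z (i.map id e)) 0 :=
      Comp.wires fun p => Or.inl ⟨p.map id e, fun x => rfl⟩
    have h1 := h0.comp hV
    rwa [zero_add] at h1
  · rw [h x]
    constructor
    · rintro ⟨y, hy⟩
      refine ⟨fun i => y (e.symm i), ?_⟩
      rw [← hy]
      show V _ = V _
      congr 1
      funext i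
      rcases i with i | i
      · rfl
      · simp
    · rintro ⟨y, hy⟩
      refine ⟨fun i => y (e i), ?_⟩
      rw [← hy]
      show V _ = V _
      congr 1
      funext i
      rcases i with i | i
      · rfl
      · simp

theorem finite_version (b m n t N : ℕ) (hb : 0 < b) (hn : n ≤ b * m) (ht : 0 < t)
    (hN : N = 2 * (t * (b ^ 3 * (2 ^ m) ^ 3))) {v d q : ℕ}
    (R : TuringRed N v d q) (s : ℕ) (hs : R.Size s)
    (hR : R.Decides (2 * b ^ 3)) (hq : q * Fintype.card (Clause v d) ≤ t * t) :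
    NComp (fun φ : Clause n 3 → Bool => ¬ Sat φ) (t * t * Fintype.card (Clause n 3))
      (bigSize (Fintype.card (Clause n 3)) (t * t) (q * Fintype.card (Clause v d))
        (N * N * (3 * Fintype.card (Clause n 3))) s) := by
  classical
  have hne : Nonempty (Fin t) := ⟨⟨0, ht⟩⟩
  -- the variables in blocks
  obtain ⟨e⟩ : Nonempty (Fin n ↪ Fin b × Fin m) := by
    refine Function.Embedding.nonempty_of_card_le ?_
    rw [Fintype.card_fin, Fintype.card_prod, Fintype.card_fin, Fintype.card_fin]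
    exact hn
  -- the numbering of the vertices
  have ev : Vtx t b m ≃ Fin N := Fintype.equivFinOfCardEq (by rw [card_vtx, hN])
  choose f hf1 hf2 using fun p : Fin N × Fin N => adj_c1 (n := n) e (ev.symm p.1) (ev.symm p.2)
  obtain ⟨G, hG⟩ : ∃ G : ((Fin t × Fin t) × Clause n 3 → Bool) → SimpleGraph (Fin N),
    G = fun ψ => (GV e (fun p c => ψ (p, c))).comap ev.symm := ⟨_, rfl⟩
  have hadj : ∀ ψ, (fun p => f p ψ) = adj (G ψ) := by
    intro ψ
    funext p
    unfold adj
    rw [Bool.eq_iff_iff, hf2 p ψ, decide_eq_true_eq, hG]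
    exact Iff.rfl
  have hclique : ∀ ψ, ¬ (G ψ).CliqueFree (2 * b ^ 3) ↔ ∃ p, Sat (fun c => ψ (p, c)) := by
    intro ψ
    rw [← clique_iff e e.injective hb (fun p c => ψ (p, c)), ← card_side b, not_cliqueFree_iff_hom,
      not_cliqueFree_iff_hom, hG]
    constructor
    · rintro ⟨g, hg⟩
      exact ⟨fun i => ev.symm (g i), fun i j hij => hg i j hij⟩
    · rintro ⟨g, hg⟩
      refine ⟨fun i => ev (g i), fun i j hij => ?_⟩
      show (GV e (fun p c => ψ (p, c))).Adj (ev.symm (ev (g i))) (ev.symm (ev (g j)))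
      rw [Equiv.symm_apply_apply, Equiv.symm_apply_apply]
      exact hg i j hij
  -- the oracle
  obtain ⟨O, hO⟩ : ∃ O : (Fin q × Clause v d → Bool) → Fin q → Bool,
    ∀ u i, O u i = true ↔ Sat fun c => u (i, c) :=
    ⟨fun u i => decide (Sat fun c => u (i, c)), by simp⟩
  have hΓ : Comp (fun (ψ : (Fin t × Fin t) × Clause n 3 → Bool) (p : Fin N × Fin N) => f p ψ)
      (N * N * (3 * Fintype.card (Clause n 3))) := by
    have h1 := Comp.ofC1 (F := fun (ψ : (Fin t × Fin t) × Clause n 3 → Bool) p => f p ψ) hf1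
    rwa [Fintype.card_prod, Fintype.card_fin] at h1
  obtain ⟨V, hV1, hV2⟩ := core (E := Fin N × Fin N) (T := Fin t × Fin t) (Cl := Clause n 3)
    (Λ := Fin q × Clause v d) (Q := Fin q)
    (fun (z : (Fin N × Fin N) ⊕ Fin q → Bool) (o : Option (Fin q × Clause v d)) =>
      o.elim (R.out (fun p => z (Sum.inl p)) fun i => z (Sum.inr i)) fun p =>
        R.query (fun p => z (Sum.inl p)) (fun i => z (Sum.inr i)) p.1 p.2) s hs O
    (fun ψ p => f p ψ) _ hΓ (fun φ => ¬ Sat φ)
    (by
      intro ψ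
      obtain ⟨a, ha⟩ := exists_answers
        (fun a i => O (fun l => R.query (adj (G ψ)) a l.1 l.2) i) (by
          intro a a' i hj
          rw [Bool.eq_iff_iff, hO, hO]
          dsimp only
          rw [R.causal _ a a' i hj])
      refine ⟨a, ?_⟩
      funext i
      rw [ha i]
      congr 1
      funext l
      simp only [Option.elim, Sum.elim_inl, Sum.elim_inr]
      rw [hadj ψ])
    (by
      intro ψ a ha
      have h1 : ∀ i, a i = true ↔ Sat (R.query (adj (G ψ)) a i) := by
        intro i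
        conv_lhs => rw [ha]
        rw [hO]
        simp only [Option.elim, Sum.elim_inl, Sum.elim_inr]
        rw [hadj ψ]
      have h2 := hR (G ψ) a h1
      simp only [Option.elim, Sum.elim_inl, Sum.elim_inr]
      rw [hadj ψ, ← not_exists, ← hclique ψ, ← h2]
      simp)
    (by
      rw [Fintype.card_prod, Fintype.card_prod, Fintype.card_fin, Fintype.card_fin]
      exact hq)
  have h3 := ncomp_reindex hV1 hV2
  rw [Fintype.card_prod, Fintype.card_prod, Fintype.card_fin, Fintype.card_prod,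
    Fintype.card_fin] at h3
  exact h3

end Pool.Agent.TH706.NE
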