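import Mathlib
import Pool.Agent.TH706.NE.Fin
import Pool.Agent.TH706.NE.Asym

/-!
# The main theorem
-/

namespace Pool.Agent.TH706.NE

open Filter
open Pool.Agent.H679R2.M1 (Clause Sat)

/-- polynomials are small -/
lemma poly_small (a : ℝ) (e : ℕ) {τ : ℝ} (hτ : 0 < τ) :
    ∀ᶠ n : ℕ in atTop, a * (n : ℝ) ^ e ≤ 2 ^ (τ * n) := by
  have hb : 0 < τ * Real.log 2 := mul_pos hτ (Real.log_pos (by norm_num))
  have h1 := (isLittleO_pow_exp_pos_mul_atTop e hb).const_mul_left a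
  have h2 := (h1.comp_tendsto tendsto_natCast_atTop_atTop).bound (show (0 : ℝ) < 1 by norm_num)
  filter_upwards [h2] with n hn
  have h3 : (2 : ℝ) ^ (τ * n) = Real.exp (τ * Real.log 2 * n) := by
    rw [Real.rpow_def_of_pos (by norm_num)]
    congr 1
    ring
  rw [h3]
  simp only [Function.comp_apply, one_mul, Real.norm_eq_abs, Real.abs_exp] at hn
  exact (le_abs_self _).trans hn

lemma card_clause_three (n : ℕ) (hn : 1 ≤ n) : Fintype.card (Clause n 3) + 1 ≤ 28 * n ^ 3 := by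
  have h := card_clause n 3
  have h1 : (2 * n + 1) ^ 3 ≤ (3 * n) ^ 3 := Nat.pow_le_pow_left (by omega) 3
  have h2 : (3 * n) ^ 3 = 27 * n ^ 3 := by ring
  have h3 : 1 ≤ n ^ 3 := Nat.one_le_pow _ _ hn
  omega

lemma bigSize_le (M T Λ N F c : ℕ) (hT : T ≤ N * N) (hΛ : Λ ≤ N * N) (hN : 1 ≤ N) :
    bigSize M T Λ (N * N * (3 * M)) (F * N ^ c) ≤ (F + 35) * (M + 1) * N ^ (c + 2) := by
  unfold bigSize
  obtain ⟨X, hX⟩ : ∃ X, X = N ^ (c + 2) := ⟨_, rfl⟩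
  have h1 : N * N ≤ X := by
    rw [hX, ← pow_two]
    exact Nat.pow_le_pow_right hN (by omega)
  have h2 : N ^ c ≤ X := by
    rw [hX]
    exact Nat.pow_le_pow_right hN (by omega)
  have h3 : 1 ≤ X := by
    rw [hX]
    exact Nat.one_le_pow _ _ hN
  rw [← hX]
  calc T * (11 * M + 3) + N * N * (3 * M) + (M + 1) * (F * N ^ c + 11 * Λ + 6) + 4
      ≤ X * (11 * M + 11) + X * (3 * M + 3) + (M + 1) * (F * X + 11 * X + 6 * X) +
        4 * ((M + 1) * X) := by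
          have hT' := hT.trans h1
          have hΛ' := hΛ.trans h1
          have h4 : 4 ≤ 4 * ((M + 1) * X) := by
            have : 1 ≤ (M + 1) * X := Nat.mul_pos (by omega) h3
            omega
          gcongr
          · omega
          · omega
          · omega
    _ = (F + 35) * (M + 1) * X := by ring

theorem main (d c : ℕ) (f g : ℕ → ℕ) (η : ℝ) (hη0 : 0 ≤ η) (hη : η < 2)
    (h : ∀ k n : ℕ, 1 ≤ n → ∃ (v q : ℕ) (R : TuringRed n v d q),
      v ≤ g k * (Nat.log 2 (f k * n ^ c) + 1) ∧ (q : ℝ) ≤ g k * (n : ℝ) ^ η ∧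
      R.Size (f k * n ^ c) ∧ R.Decides k) (ε : ℝ) (hε : 0 < ε) :
    ∀ᶠ n : ℕ in atTop, ∃ w s : ℕ, (s : ℝ) ≤ 2 ^ (ε * n) ∧
      (w : ℝ) ≤ (n : ℝ) ^ (d + 4) * 2 ^ (η * (ε * n)) ∧
      NComp (fun φ : Clause n 3 → Bool => ¬ Sat φ) w s := by
  classical
  -- the choice of the exponent `p` and the number of blocks `b`
  have hσ : 0 < (2 - η) / 2 := by linarith
  obtain ⟨p, hp⟩ : ∃ p : ℕ, 1 ≤ p * ((2 - η) / 2) := by
    obtain ⟨p, hp⟩ := exists_nat_ge (1 / ((2 - η) / 2))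
    exact ⟨p, by rwa [div_le_iff₀ hσ] at hp⟩
  obtain ⟨e, he⟩ : ∃ e : ℕ, e = (p + 1) * (c + 2) := ⟨_, rfl⟩
  obtain ⟨b, hb1, hb⟩ : ∃ b : ℕ, 1 ≤ b ∧ (6 * e : ℝ) / b ≤ ε / 2 := by
    obtain ⟨b, hb⟩ := exists_nat_ge ((6 * e : ℝ) / (ε / 2))
    refine ⟨b + 1, by omega, ?_⟩
    rw [div_le_iff₀ (by positivity)]
    rw [div_le_iff₀ (by positivity)] at hb
    push_cast
    nlinarith
  obtain ⟨K, hK⟩ : ∃ K, K = 2 * b ^ 3 := ⟨_, rfl⟩
  obtain ⟨C, hC1, hC⟩ := Phi_le (g K) (f K) c d η hσ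
  obtain ⟨A, hA1, hA⟩ := lits_le (g K) (f K) c
  -- the large numbers `n`
  have ev1 := poly_small ((f K + 35) * 28 * ((C * 256 * b ^ 6 : ℕ) : ℝ) ^ e) 3
    (show 0 < ε / 2 by positivity)
  have ev2 : ∀ᶠ n : ℕ in atTop, 1 ≤ n ∧
      (4 * (g K : ℝ) * (A * (1 + ε)) ^ d + 1) * 28 ≤ n := by
    obtain ⟨n₀, hn₀⟩ := exists_nat_ge ((4 * (g K : ℝ) * (A * (1 + ε)) ^ d + 1) * 28)
    filter_upwards [eventually_ge_atTop (max 1 n₀)] with n hn
    refine ⟨le_of_max_le_left hn, hn₀.trans ?_⟩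
    exact_mod_cast le_of_max_le_right hn
  filter_upwards [ev1, ev2] with n hn1 hn2
  obtain ⟨hn0, hn2⟩ := hn2
  obtain ⟨m, hm⟩ : ∃ m, m = n / b + 1 := ⟨_, rfl⟩
  have hnm : n ≤ b * m := by
    rw [hm]
    exact (Nat.lt_mul_div_succ n hb1).le
  obtain ⟨B, hB⟩ : ∃ B, B = 2 * (b ^ 3 * (2 ^ m) ^ 3) := ⟨_, rfl⟩
  have hB1 : 1 ≤ B := by
    rw [hB]
    have : 0 < 2 * (b ^ 3 * (2 ^ m) ^ 3) := by positivity
    omega
  obtain ⟨t, ht1, ht2, ht3, ht4⟩ := exists_t (g K) (f K) c d hη0 p C hC1 hp hη hC B hB1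
  obtain ⟨N, hN⟩ : ∃ N, N = t * B := ⟨_, rfl⟩
  rw [← hN] at ht3 ht4
  have hN1 : 1 ≤ N := by
    rw [hN]
    exact Nat.mul_pos ht1 hB1
  obtain ⟨v, q, R, hv, hq, hRs, hRd⟩ := h K N hN1
  rw [hK] at hRd
  -- the number of query bits
  have hℓ : q * Fintype.card (Clause v d) ≤ t * t := by
    have h1 : (q : ℝ) * (Fintype.card (Clause v d) : ℝ) ≤ Phi (g K) (f K) c d η N := by
      unfold Phi
      have h2 : (Fintype.card (Clause v d) : ℝ) ≤ (lits (g K) (f K) c N : ℝ) ^ d := by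
        have h3 : Fintype.card (Clause v d) ≤ (lits (g K) (f K) c N) ^ d := by
          refine (card_clause v d).trans (Nat.pow_le_pow_left ?_ _)
          unfold lits
          omega
        exact_mod_cast h3
      gcongr
    have h2 := h1.trans ht3
    exact_mod_cast h2
  have hV := finite_version b m n t N (by omega) hnm ht1 (by rw [hN, hB]; ring) R _ hRs hRd hℓ
  -- the size
  have htN : t ≤ N := by
    rw [hN]
    exact Nat.le_mul_of_pos_right _ hB1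
  have hsz := bigSize_le (Fintype.card (Clause n 3)) (t * t) (q * Fintype.card (Clause v d)) N
    (f K) c (Nat.mul_le_mul htN htN) (hℓ.trans (Nat.mul_le_mul htN htN)) hN1
  have hBle : (B : ℝ) ^ 2 ≤ 256 * b ^ 6 * 2 ^ ((6 / b : ℝ) * n) := by
    have h1 : ((2 : ℝ) ^ (n / b)) ≤ 2 ^ ((n : ℝ) / b) := by
      rw [← Real.rpow_natCast]
      exact Real.rpow_le_rpow_of_exponent_le (by norm_num) Nat.cast_div_le
    have h2 : (B : ℝ) = 16 * b ^ 3 * ((2 : ℝ) ^ (n / b)) ^ 3 := by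
      rw [hB, hm]
      push_cast
      ring
    have h3 : (2 : ℝ) ^ ((6 / b : ℝ) * n) = ((2 : ℝ) ^ ((n : ℝ) / b)) ^ 6 := by
      rw [← Real.rpow_natCast, ← Real.rpow_mul (by norm_num)]
      congr 1
      push_cast
      ring
    rw [h2, h3]
    calc (16 * (b : ℝ) ^ 3 * ((2 : ℝ) ^ (n / b)) ^ 3) ^ 2
        = 256 * b ^ 6 * ((2 : ℝ) ^ (n / b)) ^ 6 := by ring
      _ ≤ _ := by gcongr
  have hNle : (N : ℝ) ^ (c + 2) ≤ ((C * 256 * b ^ 6 : ℕ) : ℝ) ^ e * 2 ^ (ε / 2 * n) := by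
    have h0 : (N : ℝ) ≤ ((C : ℝ) * (B : ℝ) ^ 2) ^ (p + 1) := by
      have h1 : N ≤ (C * B ^ 2) ^ (p + 1) := by
        rw [hN, pow_succ]
        refine Nat.mul_le_mul ht2 ?_
        calc B ≤ B ^ 2 := Nat.le_self_pow (by norm_num) B
          _ = 1 * B ^ 2 := (one_mul _).symm
          _ ≤ C * B ^ 2 := Nat.mul_le_mul_right _ hC1
      exact_mod_cast h1
    calc (N : ℝ) ^ (c + 2) ≤ (((C : ℝ) * (B : ℝ) ^ 2) ^ (p + 1)) ^ (c + 2) := by gcongr
      _ = ((C : ℝ) * (B : ℝ) ^ 2) ^ e := by rw [← pow_mul, he]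
      _ ≤ ((C : ℝ) * (256 * b ^ 6 * 2 ^ ((6 / b : ℝ) * n))) ^ e := by gcongr
      _ = ((C * 256 * b ^ 6 : ℕ) : ℝ) ^ e * ((2 : ℝ) ^ ((6 / b : ℝ) * n)) ^ e := by
          rw [← mul_pow]
          push_cast
          ring
      _ ≤ ((C * 256 * b ^ 6 : ℕ) : ℝ) ^ e * 2 ^ (ε / 2 * n) := by
          have h2 : ((2 : ℝ) ^ ((6 / b : ℝ) * n)) ^ e ≤ 2 ^ (ε / 2 * n) := by
            rw [← Real.rpow_natCast, ← Real.rpow_mul (by norm_num)]
            apply Real.rpow_le_rpow_of_exponent_le (by norm_num)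
            calc (6 / b : ℝ) * n * e = (6 * e : ℝ) / b * n := by ring
              _ ≤ ε / 2 * n := by gcongr
          gcongr
  have hM := card_clause_three n hn0
  have hMr : (Fintype.card (Clause n 3) : ℝ) + 1 ≤ 28 * (n : ℝ) ^ 3 := by exact_mod_cast hM
  have hfinal : (((f K + 35) * (Fintype.card (Clause n 3) + 1) * N ^ (c + 2) : ℕ) : ℝ) ≤
      2 ^ (ε * n) := by
    push_cast
    calc ((f K : ℝ) + 35) * ((Fintype.card (Clause n 3) : ℝ) + 1) * (N : ℝ) ^ (c + 2)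
        ≤ ((f K : ℝ) + 35) * (28 * (n : ℝ) ^ 3) *
          (((C * 256 * b ^ 6 : ℕ) : ℝ) ^ e * 2 ^ (ε / 2 * n)) := by gcongr
      _ = ((f K + 35) * 28 * ((C * 256 * b ^ 6 : ℕ) : ℝ) ^ e * (n : ℝ) ^ 3) *
          2 ^ (ε / 2 * n) := by ring
      _ ≤ 2 ^ (ε / 2 * n) * 2 ^ (ε / 2 * n) := by gcongr
      _ = 2 ^ (ε * n) := by
          rw [← Real.rpow_add (by norm_num)]
          congr 1
          ring
  refine ⟨t * t * Fintype.card (Clause n 3), _, ?_, ?_, hV⟩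
  · exact (by exact_mod_cast hsz : _ ≤ _).trans hfinal
  · -- the number of nondeterministic bits
    have hN2 : (N : ℝ) ≤ 2 ^ (ε * n) := by
      refine le_trans ?_ hfinal
      have h1 : N ≤ (f K + 35) * (Fintype.card (Clause n 3) + 1) * N ^ (c + 2) := by
        calc N ≤ N ^ (c + 2) := Nat.le_self_pow (by omega) N
          _ = 1 * N ^ (c + 2) := (one_mul _).symm
          _ ≤ _ := Nat.mul_le_mul_right _ (Nat.mul_pos (by omega) (by omega))
      exact_mod_cast h1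
    have hnr : (1 : ℝ) ≤ n := by exact_mod_cast hn0
    have hN0 : (0 : ℝ) < N := by exact_mod_cast hN1
    have hlog : 1 + Real.log N ≤ (1 + ε) * n := by
      have h1 : Real.log N ≤ Real.log (2 ^ (ε * n)) := Real.log_le_log hN0 hN2
      rw [Real.log_rpow (by norm_num)] at h1
      have h2 : Real.log 2 ≤ 1 := by
        have := Real.log_two_lt_d9
        linarith
      have h3 : ε * n * Real.log 2 ≤ ε * n * 1 := by gcongr
      nlinarith
    have hlog0 : 0 ≤ Real.log (N : ℝ) := Real.log_natCast_nonneg N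
    have hPhi : Phi (g K) (f K) c d η N ≤
        g K * 2 ^ (η * (ε * n)) * ((A * (1 + ε)) ^ d * (n : ℝ) ^ d) := by
      unfold Phi
      have h1 : (N : ℝ) ^ η ≤ 2 ^ (η * (ε * n)) := by
        calc (N : ℝ) ^ η ≤ ((2 : ℝ) ^ (ε * n)) ^ η := Real.rpow_le_rpow hN0.le hN2 hη0
          _ = 2 ^ (η * (ε * n)) := by
              rw [← Real.rpow_mul (by norm_num)]
              congr 1
              ring
      have h2 : (lits (g K) (f K) c N : ℝ) ^ d ≤ (A * (1 + ε)) ^ d * (n : ℝ) ^ d := by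
        rw [← mul_pow]
        have h3 : (lits (g K) (f K) c N : ℝ) ≤ A * (1 + ε) * n := by
          refine (hA N hN1).trans ?_
          rw [mul_assoc]
          gcongr
        gcongr
      have h3 : (0 : ℝ) ≤ (N : ℝ) ^ η := Real.rpow_nonneg hN0.le _
      gcongr
    push_cast
    push_cast at ht4
    have h2pos : (1 : ℝ) ≤ 2 ^ (η * (ε * n)) := by
      apply Real.one_le_rpow (by norm_num)
      positivity
    have hnd : (1 : ℝ) ≤ (n : ℝ) ^ d := one_le_pow₀ hnr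
    have htt : (t : ℝ) * t ≤
        (4 * (g K : ℝ) * (A * (1 + ε)) ^ d + 1) * ((n : ℝ) ^ d * 2 ^ (η * (ε * n))) := by
      have h4 : (1 : ℝ) ≤ (n : ℝ) ^ d * 2 ^ (η * (ε * n)) := by
        calc (1 : ℝ) = 1 * 1 := (one_mul _).symm
          _ ≤ _ := by gcongr
      nlinarith
    have hMr' : (Fintype.card (Clause n 3) : ℝ) ≤ 28 * (n : ℝ) ^ 3 := by linarith
    calc (t : ℝ) * t * (Fintype.card (Clause n 3) : ℝ)
        ≤ (4 * (g K : ℝ) * (A * (1 + ε)) ^ d + 1) * ((n : ℝ) ^ d * 2 ^ (η * (ε * n))) *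
          (28 * (n : ℝ) ^ 3) := by gcongr
      _ = ((4 * (g K : ℝ) * (A * (1 + ε)) ^ d + 1) * 28) * ((n : ℝ) ^ (d + 3) *
          2 ^ (η * (ε * n))) := by ring
      _ ≤ n * ((n : ℝ) ^ (d + 3) * 2 ^ (η * (ε * n))) := by gcongr
      _ = (n : ℝ) ^ (d + 4) * 2 ^ (η * (ε * n)) := by ring

end Pool.Agent.TH706.NE
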